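import Pool.Agent.Work.MP_d2e081_al.Tri3.D

/-! Residually finite extensions with Kazhdan kernel and prescribed quotient, sandwiched between
Kazhdan groups with the same profinite completion. -/

set_option autoImplicit false

namespace Pool.Agent.Results.MP_d2e081_al.KazhdanRipsTriple

open Pool.Agent.Work.MP_d2e081_al

/-- A quotient `Q` of a finitely generated LEF group by a finitely generated perfect normal
subgroup is the quotient of a residually finite group `H` by a normal subgroup `G` with property
(T) which embeds on profinite completions; if `Q` has no proper subgroup of finite index, then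
`G`, `H` and a residually finite overgroup of `H` with property (T) have the same completion. -/
theorem result (Γ Q : Type) [Group Γ] [Group.FG Γ] (hΓ : LEF Γ) [Group Q] (π : Γ →* Q)
    (hπ : Function.Surjective π) [Group.FG π.ker] (hk : ⁅π.ker, π.ker⁆ = π.ker) :
    ∃ (G H : Type) (_ : Group G) (_ : Group H) (u : G →* H) (f : H →* Q),
      Function.Injective u ∧ Function.Surjective f ∧ u.range = f.ker ∧
      Group.FG G ∧ Group.FG H ∧ Group.ResiduallyFinite G ∧ Group.ResiduallyFinite H ∧
      Kazhdan G ∧ HasFA G ∧
      Function.Injective (ProfiniteGrp.profiniteCompletion.map (GrpCat.ofHom u)).hom ∧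
      ((∀ M : Subgroup Q, M.FiniteIndex → M = ⊤) →
        CategoryTheory.IsIso (ProfiniteGrp.profiniteCompletion.map (GrpCat.ofHom u)) ∧
        ∃ (G' : Type) (_ : Group G') (v : H →* G'), Function.Injective v ∧ Group.FG G' ∧
          Group.ResiduallyFinite G' ∧ Kazhdan G' ∧ HasFA G' ∧
          CategoryTheory.IsIso (ProfiniteGrp.profiniteCompletion.map (GrpCat.ofHom v))) := by
  cases finite_or_infinite Γ
  · have := Finite.of_surjective π hπ
    have k : Kazhdan PUnit := ⟨∅, 1, one_pos, fun H _ _ _ π ⟨v, hv, _⟩ =>
      ⟨v, by rintro rfl; simp at hv, fun g => by rw [Subsingleton.elim g 1, map_one]; rfl⟩⟩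
    have a : HasFA PUnit := fun V _ T hT _ _ => hT.connected.nonempty.elim fun v =>
      ⟨v, fun g => by rw [Subsingleton.elim g 1, one_smul]⟩
    have c : ∀ {A B : Type} [Group A] [Group B] [Subsingleton A] (N : Subgroup A), N.Normal →
        N.index ≠ 0 → ∃ M : Subgroup B, M.Normal ∧ M.index ≠ 0 ∧ M.comap (1 : A →* B) ≤ N :=
      fun N _ _ => ⟨⊤, inferInstance, by simp, fun g _ => Subsingleton.elim 1 g ▸ N.one_mem⟩
    refine ⟨PUnit, Q, inferInstance, inferInstance, 1, MonoidHom.id Q,
      fun _ _ _ => Subsingleton.elim _ _, Function.surjective_id, by simp, inferInstance,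
      inferInstance, inferInstance, inferInstance, k, a, Rips.inj_completion c, fun hQ => ?_⟩
    have := Subgroup.subsingleton_iff.1 (subsingleton_of_bot_eq_top (hQ ⊥ inferInstance))
    exact ⟨isIso_completion c fun M _ _ x => ⟨1, 1, M.one_mem, Subsingleton.elim _ _⟩, PUnit,
      inferInstance, 1, fun _ _ _ => Subsingleton.elim _ _, inferInstance, inferInstance, k, a,
      isIso_completion c fun M _ _ x => ⟨1, 1, M.one_mem, Subsingleton.elim _ _⟩⟩
  · exact Tri3.main hΓ π hπ hk

end Pool.Agent.Results.MP_d2e081_al.KazhdanRipsTriple
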