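import Pool.Agent.Work.MP_d2e081_al.Tri3.D
import Pool.Agent.Work.MP_d2e081_al.Rip2.F

/-! Properties (T) and (FA) pass neither up nor down along profinite isomorphisms. -/

set_option autoImplicit false

namespace Pool.Agent.Results.MP_d2e081_al.KazhdanTriple

open Pool.Agent.Work.MP_d2e081_al

/-- There is a chain of finitely generated residually finite groups with the same profinite
completion whose ends have properties (T) and (FA) and whose middle term has neither; the first
term is normal in the middle one, with quotient mapping onto a free product of infinite groups. -/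
theorem result :
    ∃ (G H G' : Type) (_ : Group G) (_ : Group H) (_ : Group G') (u : G →* H) (v : H →* G'),
      Group.FG G ∧ Group.FG H ∧ Group.FG G' ∧
      Group.ResiduallyFinite G ∧ Group.ResiduallyFinite H ∧ Group.ResiduallyFinite G' ∧
      Function.Injective u ∧ Function.Injective v ∧ u.range.Normal ∧
      CategoryTheory.IsIso (ProfiniteGrp.profiniteCompletion.map (GrpCat.ofHom u)) ∧
      CategoryTheory.IsIso (ProfiniteGrp.profiniteCompletion.map (GrpCat.ofHom v)) ∧
      Kazhdan G ∧ HasFA G ∧ Kazhdan G' ∧ HasFA G' ∧ ¬ Kazhdan H ∧ ¬ HasFA H ∧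
      ∃ (Q : Type) (_ : Group Q) (f : H →* Monoid.CoprodI fun _ : Bool => Q),
        Infinite Q ∧ Function.Surjective f ∧ u.range ≤ f.ker := by
  obtain ⟨t⟩ := Gam_tri (K := Pool.Agent.Work.MP_3b70de_al.E.K8)
  have hG := t.fg
  obtain ⟨Q, _, f₀, _, h1, h2, h3⟩ := Rip2.exists_lef (K := Pool.Agent.Work.MP_3b70de_al.E.K8)
  have := Infinite.of_injective _ (Monoid.CoprodI.of_injective
    (M := fun _ : Bool => QQ Pool.Agent.Work.MP_3b70de_al.E.K8) false)
  have := Infinite.of_surjective _ h2
  have : Group.FG (MonoidHom.id Q).ker := by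
    rw [MonoidHom.ker_id]
    infer_instance
  obtain ⟨G, H, _, _, u, f, a1, a2, a3, a4, a5, a6, a7, a8, a9, -, a⟩ :=
    Tri3.main h1 (MonoidHom.id Q) Function.surjective_id (by simp)
  obtain ⟨b1, G', _, v, b2, b3, b4, b5, b6, b7⟩ := a h3
  have hf : Function.Surjective (f₀.comp f) := h2.comp a2
  refine ⟨G, H, G', inferInstance, inferInstance, inferInstance, u, v, a4, a5, b3, a6, a7, b4, a1,
    b2, a3 ▸ inferInstance, b1, b7, a8, a9, b5, b6, not_kazhdan _ hf,
    fun h => not_hasFA_db (h.of_surjective _ hf), _, inferInstance, f₀.comp f, inferInstance, hf,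
    fun x hx => ?_⟩
  rw [a3] at hx
  rw [MonoidHom.mem_ker, MonoidHom.comp_apply, hx, map_one]

end Pool.Agent.Results.MP_d2e081_al.KazhdanTriple
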